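import Pool.Agent.Q49.EF.Basic

/-!
# Szpiro's small points conjecture: exact reductions

Fix `g ≥ 2`. Numbers are used as codes: `k` for pairs `(K, S)` (a number field and a finite set of finite
places), `x` for semi-stable curves `X` of genus `g` over `K` with set of bad reduction places `S`, and `y`
for the points in `X(K̄)`. An algorithm is a computable function (Mathlib's `Computable`). Question Q1 for
the genus `g` says that there is an algorithm which computes from `K` and `S` a number `c` such that each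
of these curves has a point of stable Arakelov height at most `c`.

**Theorem.** Let `K₀` be a number field (given by a code `k₀` of some pair), `N ≥ 1` and let `M : ℕ → ℕ` be
computable. The following are equivalent.

1. Question Q1 for the genus `g`.
2. The same only for the fields `K` which contain `K₀` and for the curves for which all points of order
   dividing `N` of the Jacobian are rational over `K`.
3. There is an algorithm which may be wrong for most fields: it is enough that, for every `(K, S)`, its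
   output for `K'` and the places above `S` is correct for at least one field `K'` among the first `M + 1`
   terms (`M = M(K, S)`) of a given computable sequence of extensions `K'` of `K`.
4. There is an algorithm which computes from `K` and `S` a number `c` such that each of the curves has a
   point of height at most `c` whose code is less than `c`: so there are small points for which the degree,
   the discriminant of the field and the coordinates are bounded effectively.
5. There is an algorithm which computes from `K` and `S` a bound for the stable self-intersection numbers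
   of the dualizing sheaf of the curves (effective form of Parshin's inequality).
6. There is an algorithm which computes from `K` and `S` a bound for the stable Faltings heights of the
   curves (effective Shafarevich conjecture for these curves).
7. There is an algorithm which computes from `K` and `S` the finite list of all these curves.
8. There is an algorithm which computes from `K` and `S` the number of these curves.
9. There is an algorithm which computes from `K` and `S` a number `c` such that for each of these curves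
   there is another one with an isogenous Jacobian and with a point of height at most `c`.
10. There is an algorithm which computes from `K` and `S` the number of isogeny classes of the Jacobians of
   these curves.
11. There is an algorithm which decides for `K`, `S` and a list of polynomials (with code `a`), one for each
   place in the finite set `Σ(K, S)` below, if there is one of these curves for which they are the
   characteristic polynomials of the Frobenius elements at these places.

Known facts (`IsSetting`): see the comments there. The two inequalities which are used between small points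
and Faltings heights are: `(ω, ω) ≤ 4 g (g - 1) (ω, x)` for all points (Faltings), and `h_F ≤ c (ω, ω)`
with `c` depending on `g` only, which follows from the uniform Bogomolov theorem (Dimitrov, Gao, Habegger,
Kühne, Yuan: all but a bounded number of points `x` have Néron-Tate height `ĥ(x - ω / (2 g - 2))` at least
a positive constant times `max (h_F, 1)`) and from Zhang's theorem on successive minima. In the other
direction there are points with `(ω, x) ≤ (ω, ω) / (2 g - 2) + 1` (Zhang), and `(ω, ω) ≤ 12 h_F + c` by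
Noether's formula (Faltings, Moret-Bailly) and the lower bound for the delta invariant (Wilms). The finite
set `Σ(K, S)` of places outside `S` is computable, and abelian varieties of dimension `g` over `K` with
good reduction outside `S` are isogenous if they have the same characteristic polynomials of Frobenius at
these places (Faltings). For (2): the extensions of `K` generated by the points of order dividing `N` of
the Jacobians are of bounded degree and unramified outside `S` and the places above `N`; so their compositum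
can be computed (Hermite and Minkowski). Semi-stable bad reduction remains bad over extensions.
-/

set_option autoImplicit false

namespace Pool.Agent.Results.MP_fe3691_nt.ExactReductions

open Pool.Agent.Q49.EF

/-- Semi-stable curves of genus `g` over number fields. -/
structure Setting where
  /-- `Good k x`: `x` is the least code of a curve of genus `g` over `K` (isomorphic curves are
  identified) with semi-stable reduction over the integers of `K` and with set of bad reduction places
  `S`; here `k` is the code of `(K, S)` -/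
  Good : ℕ → ℕ → Prop
  /-- `pt x y`: the stable Arakelov height `h` of the point with code `y` in `X(K̄)`, where `x` is the
  code of `X` -/
  pt : ℕ → ℕ → ℝ
  /-- the stable self-intersection number `(ω, ω)`, divided by the degree of the field -/
  w : ℕ → ℝ
  /-- the stable Faltings height of the Jacobian of the curve -/
  hF : ℕ → ℝ
  /-- `Le k k'`: the field `K'` of the pair with code `k'` contains the field `K` of that with code `k` -/
  Le : ℕ → ℕ → Prop
  /-- the Jacobians of the curves are isogenous over `K` -/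
  Isog : ℕ → ℕ → Prop
  /-- all points of order dividing `N` of the Jacobian are rational over `K` -/
  Level : ℕ → ℕ → Prop
  /-- `ext (k, i)`: the code of `(K', S')`, where `K'` is the `i`-th term of a given computable sequence of
  finite extensions of `K`, and `S'` is the set of the places above `S` -/
  ext : ℕ × ℕ → ℕ
  /-- `frob (k, x)`: the code of the list of the characteristic polynomials of Frobenius for the
  Jacobian of the curve at the places in `Σ(K, S)` -/
  frob : ℕ × ℕ → ℕ

/-- The known facts. -/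
structure IsSetting (g : ℕ) (D : Setting) : Prop where
  /-- one can decide isomorphism, semi-stability, bad reduction and being a curve of genus `g` -/
  decidable : ComputablePred fun z : ℕ × ℕ => D.Good z.1 z.2
  /-- Faltings (Shafarevich conjecture) -/
  finite : ∀ k, {x | D.Good k x}.Finite
  /-- Faltings: `(ω, ω) ≤ 4 g (g - 1) (ω, x)` for all points `x` -/
  hodge : ∀ k x y, D.Good k x → D.w x ≤ 4 * g * (g - 1) * D.pt x y
  /-- Zhang: there are points `x` with `(ω, x) ≤ (ω, ω) / (2 g - 2) + 1` -/
  zhang : ∀ k x, D.Good k x → ∃ y, D.pt x y ≤ D.w x / (2 * g - 2) + 1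
  /-- Noether's formula and the lower bound for the delta invariant -/
  noether : ∃ c : ℕ, ∀ k x, D.Good k x → D.w x ≤ 12 * D.hF x + c
  /-- uniform Bogomolov theorem: Dimitrov, Gao and Habegger; Kühne; Yuan -/
  bogomolov : ∃ c : ℕ, ∀ k x, D.Good k x → D.hF x ≤ c * D.w x
  /-- upper bounds for the Faltings height of a given curve can be computed -/
  upper : ∃ u : ℕ → ℕ, Computable u ∧ ∀ k x, D.Good k x → D.hF x ≤ u x
  /-- upper bounds for the height of a given point can be computed -/
  upper_pt : ∃ u : ℕ × ℕ → ℕ, Computable u ∧ ∀ k x y, D.Good k x → D.pt x y ≤ u (x, y)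
  /-- curves with good reduction outside `S` and with bounded height can be found effectively -/
  northcott : ∃ B : ℕ × ℕ → ℕ, Computable B ∧ ∀ k m x : ℕ, D.Good k x → D.hF x ≤ m → x < B (k, m)
  frob_computable : Computable D.frob
  /-- by the Weil bounds there are only finitely many possible polynomials -/
  weil : ∃ v : ℕ → ℕ, Computable v ∧ ∀ k x, D.Good k x → D.frob (k, x) < v k
  /-- Faltings (Tate conjecture) -/
  faltings : ∀ k x y, D.Good k x → D.Good k y → (D.frob (k, x) = D.frob (k, y) ↔ D.Isog x y)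
  /-- the isogeny theorem (Masser and Wüstholz; Gaudron and Rémond) -/
  isogeny : ∃ κ : ℕ × ℕ → ℕ, Computable κ ∧ ∀ k m x y : ℕ, D.Good k x → D.Good k y → D.Isog x y →
    D.hF y ≤ m → D.hF x ≤ κ (k, m)
  /-- level structures, see above; `e k` is the code of `(K', S')`, where `K'` contains `K` and `K₀` and
  `S'` is the set of the places above `S`; the curves over `K` and over `K'` have the same points with the
  same heights -/
  level : ∀ k₀ N : ℕ, 1 ≤ N → ∃ e : ℕ → ℕ, Computable e ∧ ∀ k x, D.Good k x → D.Le k₀ (e k) ∧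
    ∃ x', D.Good (e k) x' ∧ D.Level N x' ∧ Set.range (D.pt x') = Set.range (D.pt x)
  ext_computable : Computable D.ext
  /-- base change -/
  ext_good : ∀ k i x, D.Good k x → ∃ x', D.Good (D.ext (k, i)) x' ∧
    Set.range (D.pt x') = Set.range (D.pt x)

/-- the isogeny classes of the Jacobians of the curves over `K`, seen as sets of curves -/
def classes (D : Setting) (k : ℕ) : Set (Set ℕ) :=
  {T | ∃ x, D.Good k x ∧ T = {y | D.Good k y ∧ D.Isog x y}}

variable {D : Setting} {g : ℕ}

lemma range_le {a b : ℕ → ℝ} (h : Set.range a = Set.range b) {m : ℝ} (hb : ∃ y, a y ≤ m) :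
    ∃ y, b y ≤ m := by
  obtain ⟨y, hy⟩ := hb
  obtain ⟨z, hz⟩ : a y ∈ Set.range b := h ▸ Set.mem_range_self y
  exact ⟨z, hz ▸ hy⟩

/-- a small point bounds the Faltings height -/
lemma small (hD : IsSetting g D) (hg : 2 ≤ g) : ∃ a : ℕ, ∀ k x m : ℕ, D.Good k x →
    (∃ y, D.pt x y ≤ m) → D.w x ≤ (a * m : ℕ) ∧ D.hF x ≤ (a * m : ℕ) := by
  obtain ⟨c, hc⟩ := hD.bogomolov
  have hg' : (2 : ℝ) ≤ g := by exact_mod_cast hg
  refine ⟨(c + 1) * (4 * g * g), fun k x m hx ⟨y, hy⟩ => ?_⟩
  have h1 := hD.hodge k x y hx
  have h2 : 4 * (g : ℝ) * (g - 1) * D.pt x y ≤ 4 * g * (g - 1) * m :=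
    mul_le_mul_of_nonneg_left hy (by nlinarith)
  have hm : (0 : ℝ) ≤ m := Nat.cast_nonneg _
  have h3 : 4 * (g : ℝ) * (g - 1) * m ≤ 4 * g * g * m := by nlinarith [mul_nonneg (by linarith : (0:ℝ) ≤ g) hm]
  have h4 : D.w x ≤ 4 * g * g * m := by linarith
  have hc0 : (0 : ℝ) ≤ c := Nat.cast_nonneg _
  have h5 : (0 : ℝ) ≤ 4 * g * g * m := by positivity
  have h6 := hc k x hx
  have h7 : (c : ℝ) * D.w x ≤ c * (4 * g * g * m) := mul_le_mul_of_nonneg_left h4 hc0
  push_cast
  constructor
  · nlinarith
  · nlinarith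

lemma hF_of_q1 (hD : IsSetting g D) (hg : 2 ≤ g) {c : ℕ → ℕ} (hc : Computable c)
    (h : ∀ k x, D.Good k x → ∃ y, D.pt x y ≤ c k) :
    ∃ c : ℕ → ℕ, Computable c ∧ ∀ k x, D.Good k x → D.w x ≤ c k ∧ D.hF x ≤ c k := by
  obtain ⟨a, ha⟩ := small hD hg
  refine ⟨fun k => a * c k, ?_, fun k x hx => ha k x (c k) hx (h k x hx)⟩
  exact Primrec.nat_mul.to_comp.comp (Computable.const a) hc

/-- bounds for the codes -/
lemma codes_of_hF (hD : IsSetting g D) {c : ℕ → ℕ} (hc : Computable c)
    (h : ∀ k x, D.Good k x → D.hF x ≤ c k) :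
    ∃ B : ℕ → ℕ, Computable B ∧ ∀ k x, D.Good k x → x < B k := by
  obtain ⟨B, h3, h4⟩ := hD.northcott
  exact ⟨fun z => B (z, c z), h3.comp (Computable.pair Computable.id hc), fun k x hx =>
    h4 k _ x hx (h k x hx)⟩

lemma hF_of_codes (hD : IsSetting g D) {B : ℕ → ℕ} (hB : Computable B)
    (h : ∀ k x, D.Good k x → x < B k) :
    ∃ c : ℕ → ℕ, Computable c ∧ ∀ k x, D.Good k x → D.hF x ≤ c k := by
  obtain ⟨u, h3, h4⟩ := hD.upper
  have h5 : Computable fun z : ℕ × ℕ => u z.2 := h3.comp Computable.snd
  refine ⟨fun z => mx (fun z : ℕ × ℕ => u z.2) z (B z), mx_comp h5 hB, fun k x hx => ?_⟩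
  refine (h4 k x hx).trans ?_
  exact_mod_cast le_mx (fun z : ℕ × ℕ => u z.2) k (h k x hx)

/-- **Szpiro's small points conjecture: exact reductions.** See the explanations above. -/
theorem result (hg : 2 ≤ g) (hD : IsSetting g D) (k₀ N : ℕ) (hN : 1 ≤ N) (M : ℕ → ℕ)
    (hM : Computable M) : List.TFAE [
    ∃ c : ℕ → ℕ, Computable c ∧ ∀ k x, D.Good k x → ∃ y, D.pt x y ≤ c k,
    ∃ c : ℕ → ℕ, Computable c ∧ ∀ k x, D.Le k₀ k → D.Good k x → D.Level N x → ∃ y, D.pt x y ≤ c k,
    ∃ c : ℕ → ℕ, Computable c ∧ ∀ k, ∃ i ≤ M k, ∀ x, D.Good (D.ext (k, i)) x →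
      ∃ y, D.pt x y ≤ c (D.ext (k, i)),
    ∃ c : ℕ → ℕ, Computable c ∧ ∀ k x, D.Good k x → ∃ y < c k, D.pt x y ≤ c k,
    ∃ c : ℕ → ℕ, Computable c ∧ ∀ k x, D.Good k x → D.w x ≤ c k,
    ∃ c : ℕ → ℕ, Computable c ∧ ∀ k x, D.Good k x → D.hF x ≤ c k,
    ∃ f : ℕ → List ℕ, Computable f ∧ ∀ k x, x ∈ f k ↔ D.Good k x,
    ∃ m : ℕ → ℕ, Computable m ∧ ∀ k, {x | D.Good k x}.ncard = m k,
    ∃ c : ℕ → ℕ, Computable c ∧ ∀ k x, D.Good k x →
      ∃ x', D.Good k x' ∧ D.Isog x x' ∧ ∃ y, D.pt x' y ≤ c k,
    ∃ m : ℕ → ℕ, Computable m ∧ ∀ k, (classes D k).ncard = m k,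
    ComputablePred fun z : ℕ × ℕ => ∃ x, D.Good z.1 x ∧ D.frob (z.1, x) = z.2] := by
  classical
  obtain ⟨p, hp, hp'⟩ := ComputablePred.computable_iff.mp hD.decidable
  have hpi : ∀ k x, p (k, x) = true ↔ D.Good k x := fun k x =>
    (iff_of_eq (congrFun hp' (k, x))).symm
  have hset : ∀ k, {x | p (k, x) = true} = {x | D.Good k x} := by
    intro k
    ext x
    exact hpi k x
  have hfin : ∀ z : ℕ, {x | p (z, x) = true}.Finite := by
    intro k
    rw [hset k]
    exact hD.finite k
  tfae_have 1 → 2 := fun ⟨c, h1, h2⟩ => ⟨c, h1, fun k x _ hx _ => h2 k x hx⟩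
  tfae_have 2 → 1 := by
    rintro ⟨c, h1, h2⟩
    obtain ⟨e, h3, h4⟩ := hD.level k₀ N hN
    refine ⟨fun k => c (e k), h1.comp h3, fun k x hx => ?_⟩
    obtain ⟨h5, x', h6, h7, h8⟩ := h4 k x hx
    exact range_le h8 (h2 _ _ h5 h6 h7)
  tfae_have 1 → 3 := fun ⟨c, h1, h2⟩ => ⟨c, h1, fun k => ⟨0, Nat.zero_le _, fun x hx => h2 _ x hx⟩⟩
  tfae_have 3 → 1 := by
    rintro ⟨c, h1, h2⟩
    refine ⟨fun k => mx (fun z : ℕ × ℕ => c (D.ext z)) k (M k + 1),
      mx_comp (h1.comp hD.ext_computable) (Computable.succ.comp hM), fun k x hx => ?_⟩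
    obtain ⟨i, hi, h3⟩ := h2 k
    obtain ⟨x', h4, h5⟩ := hD.ext_good k i x hx
    obtain ⟨y, hy⟩ := range_le h5 (h3 x' h4)
    refine ⟨y, hy.trans ?_⟩
    exact_mod_cast le_mx (fun z : ℕ × ℕ => c (D.ext z)) k (Nat.lt_succ_of_le hi)
  tfae_have 1 → 5 := by
    rintro ⟨c, h1, h2⟩
    obtain ⟨c', h3, h4⟩ := hF_of_q1 hD hg h1 h2
    exact ⟨c', h3, fun k x hx => (h4 k x hx).1⟩
  tfae_have 5 → 6 := by
    rintro ⟨c, h1, h2⟩
    obtain ⟨a, ha⟩ := hD.bogomolov
    refine ⟨fun k => a * c k, Primrec.nat_mul.to_comp.comp (Computable.const a) h1,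
      fun k x hx => (ha k x hx).trans ?_⟩
    push_cast
    exact mul_le_mul_of_nonneg_left (h2 k x hx) (Nat.cast_nonneg _)
  tfae_have 6 → 1 := by
    rintro ⟨c, h1, h2⟩
    obtain ⟨a, ha⟩ := hD.noether
    refine ⟨fun k => 12 * c k + a + 1, Primrec.nat_add.to_comp.comp
      (Primrec.nat_add.to_comp.comp (Primrec.nat_mul.to_comp.comp (Computable.const 12) h1)
        (Computable.const a)) (Computable.const 1), fun k x hx => ?_⟩
    obtain ⟨y, hy⟩ := hD.zhang k x hx
    refine ⟨y, hy.trans ?_⟩
    have hg' : (2 : ℝ) ≤ g := by exact_mod_cast hg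
    have h3 := ha k x hx
    have h4 := h2 k x hx
    push_cast
    have h5 : (0 : ℝ) ≤ 12 * (c k : ℝ) + a := by positivity
    have h6 : D.w x ≤ 12 * (c k : ℝ) + a := by linarith
    have h7 : D.w x / (2 * (g : ℝ) - 2) ≤ 12 * (c k : ℝ) + a := by
      rw [div_le_iff₀ (by linarith)]
      nlinarith
    linarith
  tfae_have 6 → 7 := by
    rintro ⟨c, h1, h2⟩
    obtain ⟨B, h3, h4⟩ := codes_of_hF hD h1 h2
    obtain ⟨f, h5, h6⟩ := list_of_bound hp h3 fun z x hx => h4 z x ((hpi z x).mp hx)
    exact ⟨f, h5, fun k x => (h6 k x).trans (hpi k x)⟩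
  tfae_have 7 → 4 := by
    rintro ⟨f, h1, h2⟩
    obtain ⟨B, h3, h4⟩ := list_bound h1
    obtain ⟨u, h5, h6⟩ := hD.upper_pt
    have h7 : Computable fun z : ℕ × ℕ => u (z.2, 0) :=
      h5.comp (Computable.pair Computable.snd (Computable.const 0))
    refine ⟨fun z => mx (fun z : ℕ × ℕ => u (z.2, 0)) z (B z) + 1,
      Computable.succ.comp (mx_comp h7 h3), fun k x hx => ⟨0, Nat.succ_pos _, ?_⟩⟩
    refine (h6 k x 0 hx).trans ?_
    have h8 := le_mx (fun z : ℕ × ℕ => u (z.2, 0)) k (h4 k x ((h2 k x).mpr hx))
    exact_mod_cast h8.trans (Nat.le_succ _)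
  tfae_have 4 → 1 := by
    rintro ⟨c, h1, h2⟩
    refine ⟨c, h1, fun k x hx => ?_⟩
    obtain ⟨y, -, hy⟩ := h2 k x hx
    exact ⟨y, hy⟩
  tfae_have 6 → 8 := by
    rintro ⟨c, h1, h2⟩
    obtain ⟨B, h3, h4⟩ := codes_of_hF hD h1 h2
    obtain ⟨m, h5, h6⟩ := card_of_bound hp h3 fun z x hx => h4 z x ((hpi z x).mp hx)
    exact ⟨m, h5, fun k => by rw [← h6 k, hset k]⟩
  tfae_have 8 → 6 := by
    rintro ⟨m, h1, h2⟩
    obtain ⟨B, h4, h5⟩ := bound_of_card hp hfin h1 fun k => by rw [hset k, h2 k]
    exact hF_of_codes hD h4 fun k x hx => h5 k x ((hpi k x).mpr hx)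
  tfae_have 1 → 9 := by
    rintro ⟨c, h1, h2⟩
    exact ⟨c, h1, fun k x hx => ⟨x, hx, (hD.faltings k x x hx hx).mp rfl, h2 k x hx⟩⟩
  tfae_have 9 → 6 := by
    rintro ⟨c, h1, h2⟩
    obtain ⟨κ, h3, h4⟩ := hD.isogeny
    obtain ⟨a, ha⟩ := small hD hg
    refine ⟨fun k => κ (k, a * c k), h3.comp (Computable.pair Computable.id
      (Primrec.nat_mul.to_comp.comp (Computable.const a) h1)), fun k x hx => ?_⟩
    obtain ⟨x', h5, h6, h7⟩ := h2 k x hx
    exact h4 k _ x x' hx h5 h6 (ha k x' (c k) h5 h7).2
  -- the first curve in each isogeny class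
  have hq := fst_computable hp hD.frob_computable
  have hqfin : ∀ z : ℕ, {x | fst p D.frob (z, x) = true}.Finite := fun z =>
    (hfin z).subset fun x hx => ((fst_iff p D.frob z x).mp hx).1
  have hcl : ∀ k, (classes D k).ncard = {x | fst p D.frob (k, x) = true}.ncard := by
    intro k
    have h1 : classes D k = (fun x => {y | D.Good k y ∧ D.Isog x y}) ''
        {x | fst p D.frob (k, x) = true} := by
      ext T
      constructor
      · rintro ⟨x, h1, rfl⟩
        obtain ⟨y, -, h2, h3⟩ := exists_fst p D.frob k x ((hpi k x).mpr h1)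
        refine ⟨y, h2, ?_⟩
        have h4 : D.Good k y := (hpi k y).mp ((fst_iff _ _ _ _).mp h2).1
        ext w
        change (D.Good k w ∧ D.Isog y w) ↔ (D.Good k w ∧ D.Isog x w)
        refine and_congr_right fun hw => ?_
        rw [← hD.faltings k y w h4 hw, ← hD.faltings k x w h1 hw, h3]
      · rintro ⟨x, h1, rfl⟩
        exact ⟨x, (hpi k x).mp ((fst_iff _ _ _ _).mp h1).1, rfl⟩
    rw [h1]
    refine Set.InjOn.ncard_image ?_
    intro x hx y hy hxy
    have h2 : D.Good k x := (hpi k x).mp ((fst_iff _ _ _ _).mp hx).1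
    have h3 : D.Good k y := (hpi k y).mp ((fst_iff _ _ _ _).mp hy).1
    have h4 : y ∈ {w | D.Good k w ∧ D.Isog y w} := ⟨h3, (hD.faltings k y y h3 h3).mp rfl⟩
    rw [← show {w | D.Good k w ∧ D.Isog x w} = {w | D.Good k w ∧ D.Isog y w} from hxy] at h4
    exact fst_inj p D.frob k hx hy ((hD.faltings k x y h2 h3).mpr h4.2)
  tfae_have 6 → 10 := by
    rintro ⟨c, h1, h2⟩
    obtain ⟨B, h3, h4⟩ := codes_of_hF hD h1 h2
    obtain ⟨m, h5, h6⟩ := card_of_bound hq h3 fun z x hx =>
      h4 z x ((hpi z x).mp ((fst_iff _ _ _ _).mp hx).1)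
    exact ⟨m, h5, fun k => (hcl k).trans (h6 k)⟩
  tfae_have 10 → 6 := by
    rintro ⟨m, h1, h2⟩
    obtain ⟨B, h4, h5⟩ := bound_of_card hq hqfin h1 fun k => by rw [← hcl k, h2 k]
    obtain ⟨u, h6, h7⟩ := hD.upper
    obtain ⟨κ, h12, h13⟩ := hD.isogeny
    have h8 : Computable fun z : ℕ × ℕ => u z.2 := h6.comp Computable.snd
    refine ⟨fun z => κ (z, mx (fun z : ℕ × ℕ => u z.2) z (B z)),
      h12.comp (Computable.pair Computable.id (mx_comp h8 h4)), fun k x hx => ?_⟩
    obtain ⟨y, -, h9, h10⟩ := exists_fst p D.frob k x ((hpi k x).mpr hx)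
    have h11 : D.Good k y := (hpi k y).mp ((fst_iff _ _ _ _).mp h9).1
    refine h13 k _ x y hx h11 ((hD.faltings k x y hx h11).mp h10.symm) ((h7 k y h11).trans ?_)
    exact_mod_cast le_mx (fun z : ℕ × ℕ => u z.2) k (h5 k y h9)
  -- the predicate `p` together with the value of `frob`
  have hr : Computable fun w : (ℕ × ℕ) × ℕ => p (w.1.1, w.2) && (D.frob (w.1.1, w.2) == w.1.2) := by
    have a1 : Computable fun w : (ℕ × ℕ) × ℕ => (w.1.1, w.2) :=
      Computable.pair (Computable.fst.comp Computable.fst) Computable.snd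
    exact Primrec.and.to_comp.comp (hp.comp a1)
      (Primrec.beq.to_comp.comp (hD.frob_computable.comp a1) (Computable.snd.comp Computable.fst))
  tfae_have 6 → 11 := by
    rintro ⟨c, h1, h2⟩
    obtain ⟨B, h3, h4⟩ := codes_of_hF hD h1 h2
    refine ComputablePred.computable_iff.mpr ⟨fun z => ex
      (fun w : (ℕ × ℕ) × ℕ => p (w.1.1, w.2) && (D.frob (w.1.1, w.2) == w.1.2)) z (B z.1),
      ex_comp hr (h3.comp Computable.fst), ?_⟩
    funext z
    obtain ⟨k, a⟩ := z
    refine propext (Iff.trans ?_ (ex_iff _ _ _).symm)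
    constructor
    · rintro ⟨x, hx, hxa⟩
      refine ⟨x, h4 k x hx, ?_⟩
      rw [Bool.and_eq_true, beq_iff_eq]
      exact ⟨(hpi k x).mpr hx, hxa⟩
    · rintro ⟨x, -, hx⟩
      rw [Bool.and_eq_true, beq_iff_eq] at hx
      exact ⟨x, (hpi k x).mp hx.1, hx.2⟩
  tfae_have 11 → 6 := by
    intro h
    obtain ⟨q, h1, h2⟩ := ComputablePred.computable_iff.mp h
    have h3 : ∀ k a, q (k, a) = true ↔ ∃ x, D.Good k x ∧ D.frob (k, x) = a :=
      fun k a => (iff_of_eq (congrFun h2 (k, a))).symm
    -- search for a curve if there is one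
    have h4 : Computable fun w : (ℕ × ℕ) × ℕ =>
        !(q w.1) || (p (w.1.1, w.2) && (D.frob (w.1.1, w.2) == w.1.2)) :=
      Primrec.or.to_comp.comp (Primrec.not.to_comp.comp (h1.comp Computable.fst)) hr
    obtain ⟨f, h5, h6⟩ := search h4 fun z => by
      obtain ⟨k, a⟩ := z
      by_cases hq' : q (k, a) = true
      · obtain ⟨x, h7, h8⟩ := (h3 k a).mp hq'
        refine ⟨x, ?_⟩
        have h9 := (hpi k x).mpr h7
        simp [h9, h8]
      · refine ⟨0, ?_⟩
        simp only [Bool.not_eq_true] at hq'
        simp [hq']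
    obtain ⟨u, h7, h8⟩ := hD.upper
    obtain ⟨v, h9, h10⟩ := hD.weil
    obtain ⟨κ, h14, h15⟩ := hD.isogeny
    refine ⟨fun z => κ (z, mx (fun z => u (f z)) z (v z)),
      h14.comp (Computable.pair Computable.id (mx_comp (h7.comp h5) h9)), fun k x hx => ?_⟩
    have h11 : q (k, D.frob (k, x)) = true := (h3 _ _).mpr ⟨x, hx, rfl⟩
    have h12 := h6 (k, D.frob (k, x))
    simp only [h11, Bool.not_true, Bool.false_or, Bool.and_eq_true, beq_iff_eq] at h12
    have h13 : D.Good k (f (k, D.frob (k, x))) := (hpi k _).mp h12.1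
    refine h15 k _ x _ hx h13 ((hD.faltings k x _ hx h13).mp h12.2.symm) ((h8 k _ h13).trans ?_)
    exact_mod_cast le_mx (fun z => u (f z)) k (h10 k x hx)
  tfae_finish

end Pool.Agent.Results.MP_fe3691_nt.ExactReductions
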