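import Mathlib
import Pool.Agent.Q19.TR.Low4
import Pool.Agent.Q19.JL.Fin2

/-!
# Trinomial hyperelliptic curves: heights and bad reduction places

The curves `y² = a x ^ n + b x + c` of genus `g ≥ 2`, where `n = 2 g + 1` or `n = 2 g + 2` and
`a b c ≠ 0`, over a number field `K`. Their geometric isomorphism class is determined by
`invariant n a b c = (-1) ^ n (n - 1) ^ (n - 1) b ^ n / (n ^ n a c ^ (n - 1))`: over an algebraic
closure such a curve is `y² = x ^ n + t x + t` with `t = b ^ n / (a c ^ (n - 1))` in `K`, a fixed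
multiple of the invariant. The invariants `s ≠ 0, 1` in `K`, of all heights, are ordered by the
product `radical s` of the norms of the primes, not dividing six, at which `s` reduces to `0`, `1`
or `∞`. `M_C` is `badNorm` of `Pool/Agent/W318/SzpDefs.lean`, the product of the norms of the
places of bad reduction.

We show that for all invariants outside a set of power-saving proportion the height of `s` is at
most `κ log M_C + c₀` for ALL curves `y² = a x ^ n + b x + c` over `K` of invariant `s` (all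
twists), for every `κ > 1 / 3` and every real `c₀`, and that `1 / 3` is best possible, for every
invariant: there is a constant `A` such that for each `s ≠ 0, 1` some curve of invariant `s` has
`log M_C ≤ 3 h(s) + A`.
-/

set_option autoImplicit false

namespace Pool.Agent.Results.MP_fe3691_nt.TrinomialHeights

open Polynomial NumberField IsDedekindDomain
open Pool.Agent.W318 (IsHyp badNorm)

/-- the right hand side of `y² = a x ^ n + b x + c` -/
noncomputable def trinomial {K : Type} [Field K] (n : ℕ) (a b c : K) : K[X] :=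
  C a * X ^ n + C b * X + C c

/-- the invariant of the curve `y² = a x ^ n + b x + c` -/
noncomputable def invariant {K : Type} [Field K] (n : ℕ) (a b c : K) : K :=
  (-1) ^ n * ((n - 1 : ℕ) : K) ^ (n - 1) * b ^ n / ((n : K) ^ n * a * c ^ (n - 1))

/-- the product of the norms of the primes not dividing six at which `s` reduces to `0`, `1` or
`∞` -/
noncomputable def radical {K : Type} [Field K] [NumberField K] (s : K) : ℝ :=
  ∏ᶠ v ∈ {v : HeightOneSpectrum (𝓞 K) | v.valuation K 6 = 1 ∧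
    (v.valuation K s ≠ 1 ∨ v.valuation K (s - 1) ≠ 1)}, (Ideal.absNorm v.asIdeal : ℝ)

/-- the `s ≠ 0, 1` in `K`, of whatever height, with `radical s ≤ X` -/
def Invariants (K : Type) [Field K] [NumberField K] (X : ℝ) : Set K :=
  {s | s ≠ 0 ∧ s ≠ 1 ∧ radical s ≤ X}

/-- all curves `y² = a x ^ n + b x + c` over `K` of invariant `s` satisfy
`h(s) ≤ κ log M_C + c₀`, where `h` is the logarithmic height relative to `K` -/
def Small {K : Type} [Field K] [NumberField K] (g n : ℕ) (κ c₀ : ℝ) (s : K) : Prop :=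
  ∀ a b c : K, a ≠ 0 → b ≠ 0 → c ≠ 0 → invariant n a b c = s →
    Height.logHeight₁ s ≤ κ * Real.log (badNorm g (trinomial n a b c)) + c₀

section aux

variable {K : Type} [Field K] [NumberField K]

theorem radical_eq {s : K} (h0 : s ≠ 0) (h1 : s ≠ 1) :
    radical s = Real.exp (Pool.Agent.Q19.JL.RR (Pool.Agent.Q19.JL.zz (1728 * s))) := by
  have n1728 : (1728 : K) ≠ 0 := by norm_num
  rw [← Pool.Agent.Q19.JL.rad_eq (mul_ne_zero n1728 h0) (fun h => h1 (by
    have : (1728 : K) * s = 1728 * 1 := by rw [h, mul_one]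
    exact mul_left_cancel₀ n1728 this))]
  unfold radical
  have : {v : HeightOneSpectrum (𝓞 K) | v.valuation K 6 = 1 ∧
      (v.valuation K s ≠ 1 ∨ v.valuation K (s - 1) ≠ 1)} =
      {v : HeightOneSpectrum (𝓞 K) | v.valuation K 6 = 1 ∧
      (v.valuation K (1728 * s) ≠ 1 ∨ v.valuation K (1728 * s - 1728) ≠ 1)} := by
    ext v
    simp only [Set.mem_ofPred_eq]
    refine and_congr_right fun h6 => ?_
    have h7 : v.valuation K (1728 : K) = 1 := by
      have e6 : Pool.Agent.H691R3.fv v (6 : K) = 1 := Pool.Agent.Y733.FF.fv_one_iff v |>.2 h6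
      rw [← Pool.Agent.Y733.FF.fv_one_iff]
      refine Pool.Agent.Q19.JL.fv1728 ?_
      rw [Pool.Agent.Q19.JL.mem_T6, not_not]
      exact e6
    rw [show (1728 : K) * s - 1728 = 1728 * (s - 1) by ring, map_mul, map_mul, h7, one_mul,
      one_mul]
  rw [this]

theorem mem_inv {X : ℝ} {s : K} :
    s ∈ Invariants K X ↔ 1728 * s ∈ Pool.Agent.Q19.JL.Iv K X := by
  have n1728 : (1728 : K) ≠ 0 := by norm_num
  have e1 : (1728 : K) * s ≠ 1728 ↔ s ≠ 1 := by
    constructor
    · rintro h rfl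
      exact h (mul_one _)
    · intro h h2
      exact h (mul_left_cancel₀ n1728 (h2.trans (mul_one _).symm))
  constructor
  · rintro ⟨h0, h1, h2⟩
    refine ⟨mul_ne_zero n1728 h0, e1.2 h1, ?_⟩
    rw [← radical_eq h0 h1]
    exact h2
  · rintro ⟨h0, h1, h2⟩
    have h0' : s ≠ 0 := fun h => h0 (by rw [h, mul_zero])
    refine ⟨h0', e1.1 h1, ?_⟩
    rw [radical_eq h0' (e1.1 h1)]
    exact h2

theorem inj1728 : Function.Injective fun s : K => 1728 * s := fun x y h =>
  mul_left_cancel₀ (by norm_num : (1728 : K) ≠ 0) h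

theorem image_eq (X : ℝ) :
    (fun s : K => 1728 * s) '' Invariants K X = Pool.Agent.Q19.JL.Iv K X := by
  have n1728 : (1728 : K) ≠ 0 := by norm_num
  ext j
  constructor
  · rintro ⟨s, hs, rfl⟩
    exact mem_inv.1 hs
  · intro hj
    have e : 1728 * (j / 1728) = j := mul_div_cancel₀ j n1728
    exact ⟨j / 1728, mem_inv.2 (by rw [e]; exact hj), e⟩

theorem card_eq (X : ℝ) : (Invariants K X).ncard = (Pool.Agent.Q19.JL.Iv K X).ncard := by
  rw [← image_eq, Set.ncard_image_of_injective _ inj1728]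

theorem inv_iff {m : ℕ} {s a b c : K} (ha : a ≠ 0) (hc : c ≠ 0) :
    invariant (m + 1) a b c = s ↔ Pool.Agent.Q19.TR.IsInv m s a b c := by
  have hn0 : ((m + 1 : ℕ) : K) ≠ 0 := Nat.cast_ne_zero.2 (by omega)
  have hd : ((m + 1 : ℕ) : K) ^ (m + 1) * a * c ^ m ≠ 0 :=
    mul_ne_zero (mul_ne_zero (pow_ne_zero _ hn0) ha) (pow_ne_zero _ hc)
  have hss : ((-1 : K)) ^ (m + 1) * (-1) ^ (m + 1) = 1 := by
    rw [← mul_pow]; simp
  unfold invariant Pool.Agent.Q19.TR.IsInv
  rw [Nat.add_sub_cancel, div_eq_iff hd]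
  constructor
  · intro h
    calc (m : K) ^ m * b ^ (m + 1) = ((-1) ^ (m + 1) * (-1) ^ (m + 1)) *
        ((m : K) ^ m * b ^ (m + 1)) := by rw [hss, one_mul]
      _ = (-1) ^ (m + 1) * ((-1) ^ (m + 1) * (m : K) ^ m * b ^ (m + 1)) := by ring
      _ = _ := by rw [h]; ring
  · intro h
    calc (-1) ^ (m + 1) * (m : K) ^ m * b ^ (m + 1) =
        (-1) ^ (m + 1) * ((m : K) ^ m * b ^ (m + 1)) := by ring
      _ = ((-1) ^ (m + 1) * (-1) ^ (m + 1)) *
        (((m + 1 : ℕ) : K) ^ (m + 1) * s * (a * c ^ m)) := by rw [h]; ring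
      _ = _ := by rw [hss]; ring

/-- heights: `h(s) ≤ hgt` -/
theorem height_le {s : K} (h0 : s ≠ 0) (h1 : s ≠ 1) :
    Height.logHeight₁ s ≤ Pool.Agent.TH876.Loc.hgt (Pool.Agent.Q19.JL.zz (1728 * s)) := by
  have n1728 : (1728 : K) ≠ 0 := by norm_num
  have h1' : (1728 : K) * s ≠ 1728 := fun h => h1 (mul_left_cancel₀ n1728
    (h.trans (mul_one _).symm))
  have hx := Pool.Agent.Q19.JL.pt_zz (mul_ne_zero n1728 h0) h1'
  have h3 := Pool.Agent.TH876.Loc.logHeight_le hx
  have e : Pool.Agent.Q19.JL.zz ((1728 : K) * s) = -s := by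
    unfold Pool.Agent.Q19.JL.zz
    field_simp
  rw [e] at h3 ⊢
  rwa [Height.logHeight₁_neg] at h3

theorem height_ge {s : K} (h0 : s ≠ 0) (h1 : s ≠ 1) :
    Pool.Agent.TH876.Loc.hgt (Pool.Agent.Q19.JL.zz (1728 * s)) ≤
      Height.logHeight₁ s + Module.finrank ℚ K * Real.log 2 := by
  have e : Pool.Agent.Q19.JL.zz ((1728 : K) * s) = -s := by
    unfold Pool.Agent.Q19.JL.zz
    field_simp
  rw [e]
  exact Pool.Agent.Y729.AH.hgt_le h0 h1

end aux

/-- **The heights of the trinomial curves of almost all invariants.** -/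
theorem result (K : Type) [Field K] [NumberField K] (g n : ℕ) (hg : 2 ≤ g)
    (hn : n = 2 * g + 1 ∨ n = 2 * g + 2) :
    (∀ a b c : K, a ≠ 0 → b ≠ 0 → c ≠ 0 → invariant n a b c ≠ 1 → IsHyp g (trinomial n a b c)) ∧
    (∀ δ : ℝ, 0 < δ → ∃ X₀ : ℝ, ∀ X : ℝ, X₀ ≤ X → (Invariants K X).Finite ∧
      X ^ (2 / 3 - δ) ≤ ((Invariants K X).ncard : ℝ) ∧
      ((Invariants K X).ncard : ℝ) ≤ X ^ (2 / 3 + δ)) ∧
    (∀ κ c₀ : ℝ, 1 / 3 < κ → ∃ ν X₀ : ℝ, 0 < ν ∧ ∀ X : ℝ, X₀ ≤ X →
      (({s | s ∈ Invariants K X ∧ ¬ Small g n κ c₀ s} : Set K).ncard : ℝ) ≤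
        X ^ (-ν) * (Invariants K X).ncard) ∧
    ∃ A : ℝ, ∀ s : K, s ≠ 0 → s ≠ 1 → ∃ a b c : K, a ≠ 0 ∧ b ≠ 0 ∧ c ≠ 0 ∧
      invariant n a b c = s ∧
      Real.log (badNorm g (trinomial n a b c)) ≤ 3 * Height.logHeight₁ s + A := by
  obtain ⟨m, rfl⟩ : ∃ m, n = m + 1 := ⟨n - 1, by omega⟩
  have hm : m = 2 * g ∨ m = 2 * g + 1 := by omega
  have n1728 : (1728 : K) ≠ 0 := by norm_num
  refine ⟨fun a b c ha hb hc h => ?_, fun δ hδ => ?_, fun κ c₀ hκ => ?_, ?_⟩
  · exact Pool.Agent.Q19.TR.hyp_tri hm hg ha hb hc h ((inv_iff ha hc).1 rfl)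
  · obtain ⟨X1, hX1, h1⟩ := Pool.Agent.Q19.JL.Iv_upper K δ hδ
    obtain ⟨X2, hX2, h2⟩ := Pool.Agent.Q19.JL.Iv_lower K δ hδ
    refine ⟨max X1 X2, fun X hX => ?_⟩
    have hfin := Pool.Agent.Q19.JL.Iv_fin K (hX1.trans ((le_max_left _ _).trans hX))
    rw [card_eq]
    refine ⟨?_, h2 X ((le_max_right _ _).trans hX), h1 X ((le_max_left _ _).trans hX)⟩
    rw [← image_eq] at hfin
    exact hfin.of_finite_image inj1728.injOn
  · -- `D` with `D - 3 = 1 / κ`
    have hκ0 : 0 < κ := by linarith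
    obtain ⟨D, hD⟩ : ∃ D : ℝ, D = 3 + 1 / κ := ⟨_, rfl⟩
    have hD3 : 3 < D := by
      have : 0 < 1 / κ := by positivity
      linarith
    have hD6 : D < 6 := by
      have : 1 / κ < 3 := by
        rw [div_lt_iff₀ hκ0]
        linarith
      linarith
    have hM : 1 / 3 < 2 / D := by
      rw [div_lt_div_iff₀ (by norm_num) (by linarith)]
      linarith
    obtain ⟨B, hB⟩ : ∃ B : ℝ, B = |c₀| / κ + |Pool.Agent.Q19.TR.CB K m| := ⟨_, rfl⟩
    have hB0 : 0 ≤ B := by rw [hB]; positivity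
    obtain ⟨ν, X₀, hν, -, h⟩ := Pool.Agent.Q19.JL.exc_prop K B hM
    refine ⟨ν, X₀, hν, fun X hX => ?_⟩
    rw [card_eq, ← Set.ncard_image_of_injective _ (inj1728 (K := K))]
    refine h X hX _ ?_ ?_
    · rintro j ⟨s, hs, rfl⟩
      exact mem_inv.1 hs.1
    · rintro j ⟨s, ⟨hs1, hs2⟩, rfl⟩ hcon
      refine hs2 fun a b c ha hb hc hinv => ?_
      obtain ⟨h0, h1, -⟩ := hs1
      have h1' : (1728 : K) * s ≠ 1728 := fun h => h1 (mul_left_cancel₀ n1728
        (h.trans (mul_one _).symm))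
      have e : 1728 * s / 1728 = s := mul_div_cancel_left₀ s n1728
      rw [inv_iff ha hc] at hinv
      have hlo := Pool.Agent.Q19.TR.bad_low hm hg ha hb hc (mul_ne_zero n1728 h0) h1'
        (by rw [e]; exact hinv)
      have hh := height_le h0 h1
      set H := Pool.Agent.TH876.Loc.hgt (Pool.Agent.Q19.JL.zz (1728 * s)) with hH
      set R := Pool.Agent.Q19.JL.RR (Pool.Agent.Q19.JL.zz (1728 * s)) with hR
      set L := Real.log (badNorm g (trinomial (m + 1) a b c)) with hL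
      have hlo' : 2 * R - 3 * H - Pool.Agent.Q19.TR.CB K m ≤ L := hlo
      have hD0 : 0 < D := by linarith
      have h2 : D * H + D * B ≤ 2 * R := by
        have e1 : D * (2 / D * R - B) = 2 * R - D * B := by
          field_simp
        have e2 := mul_le_mul_of_nonneg_left hcon hD0.le
        linarith
      have h3 : 1 / κ * H + |c₀| / κ ≤ L := by
        have e3 : D * H = 3 * H + 1 / κ * H := by rw [hD]; ring
        have e4 : B ≤ D * B := by nlinarith
        have e5 := le_abs_self (Pool.Agent.Q19.TR.CB K m)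
        linarith
      have h4 := mul_le_mul_of_nonneg_left h3 hκ0.le
      have e6 : κ * (1 / κ * H + |c₀| / κ) = H + |c₀| := by
        field_simp
      have e7 := neg_abs_le c₀
      linarith
  · refine ⟨3 * (Module.finrank ℚ K * Real.log 2) + Pool.Agent.Q19.TR.CB K m,
      fun s h0 h1 => ?_⟩
    have h1' : (1728 : K) * s ≠ 1728 := fun h => h1 (mul_left_cancel₀ n1728
      (h.trans (mul_one _).symm))
    have h0' := mul_ne_zero n1728 h0
    have e : 1728 * s / 1728 = s := mul_div_cancel_left₀ s n1728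
    obtain ⟨-, ht, hD0⟩ := Pool.Agent.Q19.TR.hyp_ext hm hg h0 h1
    have hup := Pool.Agent.Q19.TR.bad_up hm hg h0' h1'
    rw [e] at hup
    have hR := Pool.Agent.Q19.JL.RR_le h0' h1'
    have hh := height_ge h0 h1
    refine ⟨s * (1 - s), s * (1 - s) * Pool.Agent.Q19.TR.twt m s,
      s * (1 - s) * Pool.Agent.Q19.TR.twt m s, hD0, mul_ne_zero hD0 ht, mul_ne_zero hD0 ht,
      (inv_iff hD0 (mul_ne_zero hD0 ht)).2 (Pool.Agent.Q19.TR.isInv_twist _
        (Pool.Agent.Q19.TR.twt_eq (by omega) s)), ?_⟩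
    have hup' : Real.log (badNorm g (trinomial (m + 1) (s * (1 - s))
        (s * (1 - s) * Pool.Agent.Q19.TR.twt m s) (s * (1 - s) * Pool.Agent.Q19.TR.twt m s))) ≤
        Pool.Agent.Q19.JL.RR (Pool.Agent.Q19.JL.zz (1728 * s)) + Pool.Agent.Q19.TR.CB K m := hup
    linarith

end Pool.Agent.Results.MP_fe3691_nt.TrinomialHeights
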